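import Pool.Agent.Lead.Gro6

namespace Pool.Agent.Results.MP_e70507_gt.Q2

open Pool.Agent.Lead.Gro

theorem result : ∀ (X K : Type) [TopologicalSpace X] [T35Space X] [TopologicalSpace K]
    [CompactSpace K] [T2Space K], (∀ S : Set (Cp X), IsCompact S → FrechetUrysohnSpace S) →
    ∀ S : Set (Cp (X × K)), IsCompact S → FrechetUrysohnSpace S :=
  fun _ _ _ _ _ _ _ h => fug_iff.2 (fug_prod (fug_iff.1 h))

end Pool.Agent.Results.MP_e70507_gt.Q2
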